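import Mathlib

/-!
# Every commutative monoid is surjunctive

A monoid, commutative or not, is surjunctive as soon as each of its finitely generated submonoids
is commutative or surjunctive (`result`); in particular every commutative monoid is surjunctive
(`surjunctive_of_comm`).
-/

set_option autoImplicit false

namespace Pool.Agent.Results.MP_efaf6a_an.LocalSurjunctivity

universe u v

/-- The shifted configuration `m x`, that is `(m x)(n) = x (n m)`. -/
def shift {M : Type u} [Monoid M] {A : Type v} (m : M) (x : M → A) : M → A :=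
  fun n => x (n * m)

/-- `τ` is a cellular automaton over the monoid `M` with alphabet `A`: there are a finite subset
`S` of `M` and a map `μ : A^S → A` with `τ(x)(m) = μ((m x)|_S)` for all `x` and `m`. -/
def IsCellularAutomaton {M : Type u} [Monoid M] {A : Type v} (τ : (M → A) → (M → A)) : Prop :=
  ∃ (S : Finset M) (μ : (S → A) → A), ∀ (x : M → A) (m : M),
    τ x m = μ (fun s : S => shift m x s.1)

/-- The monoid `M` is surjunctive: for every finite alphabet every injective cellular automaton
over `M` is surjective. -/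
def Surjunctive (M : Type u) [Monoid M] : Prop :=
  ∀ (A : Type v) [Finite A] (τ : (M → A) → (M → A)),
    IsCellularAutomaton τ → Function.Injective τ → Function.Surjective τ

/-- Compactness: the value at `1` of a configuration is determined by finitely many values of its
image under an injective cellular automaton. -/
theorem exists_memory (M : Type u) [Monoid M] (A : Type v) [Finite A] (S : Finset M)
    (μ : (S → A) → A)
    (hinj : Function.Injective (fun (x : M → A) (m : M) => μ (fun s : S => x (s.1 * m)))) :
    ∃ F : Finset M, ∀ x y : M → A,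
      (∀ f ∈ F, μ (fun s : S => x (s.1 * f)) = μ (fun s : S => y (s.1 * f))) → x 1 = y 1 := by
  classical
  let : TopologicalSpace A := ⊥
  have : DiscreteTopology A := ⟨rfl⟩
  by_contra hcon
  push Not at hcon
  let K : Finset M → Set ((M → A) × (M → A)) := fun F =>
    {p | (∀ f ∈ F, μ (fun s : S => p.1 (s.1 * f)) = μ (fun s : S => p.2 (s.1 * f))) ∧ p.1 1 ≠ p.2 1}
  have hcont : ∀ f : M, Continuous (fun x : M → A => μ (fun s : S => x (s.1 * f))) := by
    intro f
    have h1 : Continuous (fun x : M → A => (fun s : S => x (s.1 * f))) :=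
      continuous_pi fun s => continuous_apply _
    exact (continuous_of_discreteTopology (f := μ)).comp h1
  have hclosed : ∀ F, IsClosed (K F) := by
    intro F
    apply IsClosed.inter
    · have : {p : (M → A) × (M → A) | ∀ f ∈ F, μ (fun s : S => p.1 (s.1 * f))
          = μ (fun s : S => p.2 (s.1 * f))} = ⋂ f ∈ F, {p : (M → A) × (M → A) |
            μ (fun s : S => p.1 (s.1 * f)) = μ (fun s : S => p.2 (s.1 * f))} := by
        ext p; simp
      change IsClosed {p : (M → A) × (M → A) | ∀ f ∈ F, μ (fun s : S => p.1 (s.1 * f))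
          = μ (fun s : S => p.2 (s.1 * f))}
      rw [this]
      refine isClosed_biInter fun f _ => ?_
      exact isClosed_eq ((hcont f).comp continuous_fst) ((hcont f).comp continuous_snd)
    · have hc : Continuous (fun p : (M → A) × (M → A) => (p.1 1, p.2 1)) :=
        ((continuous_apply 1).comp continuous_fst).prodMk ((continuous_apply 1).comp continuous_snd)
      exact (isClosed_discrete {q : A × A | q.1 ≠ q.2}).preimage hc
  have hne : ∀ F, (K F).Nonempty := by
    intro F
    obtain ⟨x, y, hxy, h1⟩ := hcon F
    exact ⟨(x, y), hxy, h1⟩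
  have hdir : Directed (· ⊇ ·) K := by
    intro F G
    refine ⟨F ∪ G, ?_, ?_⟩
    · intro p hp
      exact ⟨fun f hf => hp.1 f (Finset.mem_union_left _ hf), hp.2⟩
    · intro p hp
      exact ⟨fun f hf => hp.1 f (Finset.mem_union_right _ hf), hp.2⟩
  obtain ⟨p, hp⟩ := IsCompact.nonempty_iInter_of_directed_nonempty_isCompact_isClosed K hdir hne
    (fun F => (hclosed F).isCompact) hclosed
  rw [Set.mem_iInter] at hp
  have heq : p.1 = p.2 := by
    apply hinj
    funext m
    exact (hp {m}).1 m (Finset.mem_singleton_self m)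
  exact (hp ∅).2 (by rw [heq])

/-- An injective cellular automaton has a left inverse with finite memory. -/
theorem exists_left_inverse (M : Type u) [Monoid M] (A : Type v) [Finite A] [Nonempty A]
    (S : Finset M) (μ : (S → A) → A)
    (hinj : Function.Injective (fun (x : M → A) (m : M) => μ (fun s : S => x (s.1 * m)))) :
    ∃ (F : Finset M) (ν : (F → A) → A), ∀ x : M → A,
      ν (fun f : F => μ (fun s : S => x (s.1 * f.1))) = x 1 := by
  classical
  obtain ⟨F, hF⟩ := exists_memory M A S μ hinj
  let a₀ : A := Classical.arbitrary A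
  let ν : (F → A) → A := fun g =>
    if h : ∃ x : M → A, ∀ f : F, μ (fun s : S => x (s.1 * f.1)) = g f then h.choose 1 else a₀
  refine ⟨F, ν, fun x => ?_⟩
  have h : ∃ x' : M → A, ∀ f : F, μ (fun s : S => x' (s.1 * f.1))
      = (fun f : F => μ (fun s : S => x (s.1 * f.1))) f := ⟨x, fun f => rfl⟩
  have : ν (fun f : F => μ (fun s : S => x (s.1 * f.1))) = h.choose 1 := by
    simp only [ν]
    rw [dif_pos h]
  rw [this]
  apply hF
  intro f hf
  exact h.choose_spec ⟨f, hf⟩

/-- **Surjunctivity is local**: a monoid all of whose finitely generated submonoids are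
surjunctive is surjunctive. -/
theorem surjunctive_of_fg (M : Type u) [Monoid M]
    (h : ∀ N : Submonoid M, N.FG → Surjunctive.{u, v} N) : Surjunctive.{u, v} M := by
  classical
  intro A _ τ hτ hinj y
  obtain ⟨S, μ, hμ⟩ := hτ
  have hτ' : τ = fun (x : M → A) (m : M) => μ (fun s : S => x (s.1 * m)) := by
    funext x m; exact hμ x m
  subst hτ'
  have : Nonempty A := ⟨y 1⟩
  let a₀ : A := y 1
  obtain ⟨F, ν, hν⟩ := exists_left_inverse M A S μ hinj
  let N : Submonoid M := Submonoid.closure ((S ∪ F : Finset M) : Set M)
  have hfg : N.FG := ⟨S ∪ F, rfl⟩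
  have hSN : ∀ s : S, s.1 ∈ N := fun s => Submonoid.subset_closure (by simp)
  have hFN : ∀ f : F, f.1 ∈ N := fun f => Submonoid.subset_closure (by simp)
  -- the restricted automaton, written with a memory set in `N`
  let s' : S → N := fun s => ⟨s.1, hSN s⟩
  let f' : F → N := fun f => ⟨f.1, hFN f⟩
  let τN : (N → A) → (N → A) := fun x n => μ (fun s : S => x (s' s * n))
  let σN : (N → A) → (N → A) := fun x n => ν (fun f : F => x (f' f * n))
  have hCA : IsCellularAutomaton τN := by
    refine ⟨Finset.univ.image s', fun g => μ (fun s : S => g ⟨s' s, by simp⟩), fun x m => ?_⟩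
    rfl
  have hleft : Function.LeftInverse σN τN := by
    intro x
    funext n
    let x' : M → A := fun m => if hm : m ∈ N then x (⟨m, hm⟩ * n) else a₀
    have h1 : σN (τN x) n = ν (fun f : F => μ (fun s : S => x' (s.1 * f.1))) := by
      simp only [σN, τN]
      congr 1
      funext f
      congr 1
      funext s
      have hmem : s.1 * f.1 ∈ N := N.mul_mem (hSN s) (hFN f)
      simp only [x']
      rw [dif_pos hmem, ← mul_assoc]
      rfl
    rw [h1, hν x']
    simp only [x']
    rw [dif_pos N.one_mem]
    congr 1
    exact one_mul n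
  have hsurj : Function.Surjective τN := h N hfg A τN hCA hleft.injective
  have hright : ∀ z : N → A, τN (σN z) = z := by
    intro z
    obtain ⟨x, rfl⟩ := hsurj z
    rw [hleft x]
  refine ⟨fun m => ν (fun f : F => y (f.1 * m)), ?_⟩
  funext m
  have key := congrFun (hright (fun n : N => y (n.1 * m))) 1
  simp only [τN, σN] at key
  change μ (fun s : S => ν (fun f : F => y (f.1 * (s.1 * m)))) = y m
  have h1 : y m = y ((1 : N).1 * m) := by
    congr 1
    exact (one_mul m).symm
  rw [h1, ← key]
  congr 1
  funext s
  congr 1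
  funext f
  congr 1
  rw [← mul_assoc]
  congr 1
  change f.1 * s.1 = f.1 * (s.1 * 1)
  rw [mul_one]

/-- A monoid whose finite subsets embed in finite quotients is surjunctive. -/
theorem surjunctive_of_finite_hom (M : Type u) [Monoid M]
    (h : ∀ E : Set M, E.Finite →
      ∃ (Q : Type u) (_ : Monoid Q) (_ : Finite Q) (φ : M →* Q), Set.InjOn φ E) :
    Surjunctive.{u, v} M := by
  classical
  intro A _ τ hτ hinj y
  obtain ⟨S, μ, hμ⟩ := hτ
  have hτ' : τ = fun (x : M → A) (m : M) => μ (fun s : S => x (s.1 * m)) := by
    funext x m; exact hμ x m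
  subst hτ'
  have : Nonempty A := ⟨y 1⟩
  let a₀ : A := y 1
  obtain ⟨F, ν, hν⟩ := exists_left_inverse M A S μ hinj
  let E : Set M := insert 1 (Set.range fun p : F × S => p.1.1 * p.2.1)
  have hE : E.Finite := (Set.finite_range _).insert _
  obtain ⟨Q, _, _, φ, hφ⟩ := h E hE
  let τQ : (Q → A) → (Q → A) := fun x q => μ (fun s : S => x (φ s.1 * q))
  let σQ : (Q → A) → (Q → A) := fun x q => ν (fun f : F => x (φ f.1 * q))
  have hleft : Function.LeftInverse σQ τQ := by
    intro x
    funext q
    have h1 := hν (fun m : M => x (φ m * q))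
    simp only [map_one, one_mul] at h1
    simp only [σQ, τQ]
    rw [← h1]
    congr 1
    funext f
    congr 1
    funext s
    rw [map_mul, mul_assoc]
  have hsurj : Function.Surjective τQ := Finite.surjective_of_injective hleft.injective
  have hright : ∀ z : Q → A, τQ (σQ z) = z := by
    intro z
    obtain ⟨x, rfl⟩ := hsurj z
    rw [hleft x]
  refine ⟨fun m => ν (fun f : F => y (f.1 * m)), ?_⟩
  funext m
  let yQ : Q → A := fun q => if h : ∃ e ∈ E, φ e = q then y (h.choose * m) else a₀
  have hyQ : ∀ e ∈ E, yQ (φ e) = y (e * m) := by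
    intro e he
    have h : ∃ e' ∈ E, φ e' = φ e := ⟨e, he, rfl⟩
    have h2 : h.choose = e := hφ h.choose_spec.1 he h.choose_spec.2
    simp only [yQ]
    rw [dif_pos h, h2]
  have key := congrFun (hright yQ) 1
  have h1 : yQ 1 = y m := by
    have := hyQ 1 (Set.mem_insert _ _)
    rw [map_one, one_mul] at this
    exact this
  change μ (fun s : S => ν (fun f : F => y (f.1 * (s.1 * m)))) = y m
  rw [← h1, ← key]
  simp only [τQ, σQ]
  congr 1
  funext s
  congr 1
  funext f
  rw [mul_one, ← map_mul, hyQ _ (Set.mem_insert_of_mem _ ⟨(f, s), rfl⟩), mul_assoc]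

/-- Malcev: finitely generated commutative monoids are residually finite.  Two distinct elements
are separated by the monoid algebra over the field with two elements, modulo a power of a maximal
ideal. -/
theorem exists_finite_hom_ne (N : Type u) [CommMonoid N] [Monoid.FG N] (a b : N) (hab : a ≠ b) :
    ∃ (Q : Type u) (_ : CommMonoid Q) (_ : Finite Q) (φ : N →* Q), φ a ≠ φ b := by
  classical
  have : Fact (Nat.Prime 2) := ⟨Nat.prime_two⟩
  let R := MonoidAlgebra (ZMod 2) N
  have : IsNoetherianRing R := Algebra.FiniteType.isNoetherianRing (ZMod 2) R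
  let r : R := MonoidAlgebra.of (ZMod 2) N a - MonoidAlgebra.of (ZMod 2) N b
  have hr : r ≠ 0 := by
    intro h
    have h1 : MonoidAlgebra.of (ZMod 2) N a = MonoidAlgebra.of (ZMod 2) N b := sub_eq_zero.mp h
    exact hab (MonoidAlgebra.of_injective h1)
  -- the annihilator of `r` is proper
  let J : Ideal R := Ideal.span {x : R | x * r = 0}
  have hJ : J ≠ ⊤ := by
    intro htop
    have h1 : (1 : R) ∈ J := by rw [htop]; trivial
    have h2 : ∀ x ∈ J, x * r = 0 := by
      intro x hx
      refine Submodule.span_induction ?_ ?_ ?_ ?_ hx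
      · intro y hy; exact hy
      · simp
      · intro y z _ _ hy hz; rw [add_mul, hy, hz, add_zero]
      · intro c y _ hy; rw [smul_eq_mul, mul_assoc, hy, mul_zero]
    have := h2 1 h1
    rw [one_mul] at this
    exact hr this
  obtain ⟨m, hm, hJm⟩ := Ideal.exists_le_maximal J hJ
  have := hm
  -- residue field is finite
  let : Field (R ⧸ m) := Ideal.Quotient.field m
  have : Module.Finite (ZMod 2) (R ⧸ m) := finite_of_finite_type_of_isJacobsonRing (ZMod 2) (R ⧸ m)
  have : Finite (R ⧸ m) := Module.finite_of_finite (ZMod 2)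
  -- Krull intersection
  have hk : ∃ n : ℕ, r ∉ m ^ n := by
    by_contra hcon
    push Not at hcon
    have hmem : r ∈ (⨅ i : ℕ, m ^ i • ⊤ : Submodule R R) := by
      rw [Submodule.mem_iInf]
      intro i
      simpa using hcon i
    rw [Ideal.mem_iInf_smul_pow_eq_bot_iff] at hmem
    obtain ⟨c, hc⟩ := hmem
    have h1 : (1 - (c : R)) * r = 0 := by
      rw [sub_mul, one_mul]
      have : (c : R) * r = r := by simpa [smul_eq_mul] using hc
      rw [this, sub_self]
    have h2 : (1 - (c : R)) ∈ m := hJm (Ideal.subset_span h1)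
    have h3 : (1 : R) ∈ m := by
      have := m.add_mem h2 c.2
      simpa using this
    exact hm.ne_top ((Ideal.eq_top_iff_one m).mpr h3)
  obtain ⟨n, hn⟩ := hk
  have : Finite (R ⧸ m ^ n) := Ideal.finite_quotient_pow (IsNoetherian.noetherian m) n
  refine ⟨R ⧸ m ^ n, inferInstance, inferInstance,
    ((Ideal.Quotient.mk (m ^ n)).toMonoidHom).comp (MonoidAlgebra.of (ZMod 2) N), ?_⟩
  intro h
  apply hn
  have h' : Ideal.Quotient.mk (m ^ n) (MonoidAlgebra.of (ZMod 2) N a)
      = Ideal.Quotient.mk (m ^ n) (MonoidAlgebra.of (ZMod 2) N b) := h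
  exact Ideal.Quotient.eq.mp h'

/-- A finite subset of a finitely generated commutative monoid embeds in a finite quotient. -/
theorem exists_finite_hom_injOn (N : Type u) [CommMonoid N] [Monoid.FG N] (E : Set N)
    (hE : E.Finite) :
    ∃ (Q : Type u) (_ : CommMonoid Q) (_ : Finite Q) (φ : N →* Q), Set.InjOn φ E := by
  classical
  let I := {p : N × N // p.1 ∈ E ∧ p.2 ∈ E ∧ p.1 ≠ p.2}
  have : Finite I := by
    have : (E ×ˢ E).Finite := hE.prod hE
    have := this.to_subtype
    refine Finite.of_injective (fun p : I => (⟨p.1, p.2.1, p.2.2.1⟩ : (E ×ˢ E : Set (N × N)))) ?_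
    intro p q hpq
    apply Subtype.ext
    have h := congrArg (fun z : (E ×ˢ E : Set (N × N)) => z.1) hpq
    exact h
  choose Q hQm hQf φ hφ using fun p : I => exists_finite_hom_ne N p.1.1 p.1.2 p.2.2.2
  let := hQm
  have := hQf
  refine ⟨(∀ p : I, Q p), inferInstance, inferInstance, MonoidHom.pi φ, ?_⟩
  intro a ha b hb hab
  by_contra hne
  have := congrFun hab ⟨(a, b), ha, hb, hne⟩
  exact hφ ⟨(a, b), ha, hb, hne⟩ this

/-- Finitely generated commutative monoids are surjunctive. -/
theorem surjunctive_of_fg_comm (N : Type u) [CommMonoid N] [Monoid.FG N] :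
    Surjunctive.{u, v} N := by
  refine surjunctive_of_finite_hom N fun E hE => ?_
  obtain ⟨Q, hQ, hf, φ, hφ⟩ := exists_finite_hom_injOn N E hE
  exact ⟨Q, hQ.toMonoid, hf, φ, hφ⟩

/-- A monoid, commutative or not, is surjunctive as soon as each of its finitely generated
submonoids is commutative or surjunctive.  In particular every commutative monoid is
surjunctive (see `surjunctive_of_comm` below). -/
theorem result (M : Type u) [Monoid M]
    (h : ∀ N : Submonoid M, N.FG →
      (∀ a ∈ N, ∀ b ∈ N, a * b = b * a) ∨ Surjunctive.{u, v} N) :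
    Surjunctive.{u, v} M := by
  refine surjunctive_of_fg M fun N hN => ?_
  rcases h N hN with hc | hs
  · have hfg : Monoid.FG N := (Monoid.fg_iff_submonoid_fg N).2 hN
    let inst : CommMonoid N :=
      { (inferInstance : Monoid N) with
        mul_comm := fun a b => Subtype.ext (hc a.1 a.2 b.1 b.2) }
    exact @surjunctive_of_fg_comm N inst hfg
  · exact hs

/-- The open problem: every commutative monoid is surjunctive. -/
theorem surjunctive_of_comm (M : Type u) [CommMonoid M] : Surjunctive.{u, v} M :=
  result M fun _ _ => Or.inl fun a _ b _ => mul_comm a b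

end Pool.Agent.Results.MP_efaf6a_an.LocalSurjunctivity
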